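import Pool.Agent.U566.BMAltQ

/-!
# The Breuil–Mézard conjecture for `GL_n` over `ℚ_p`: alternating sums over the Weyl group

`T` is the set of inertial types; `D` records for each type the Brauer character `θ τ` of the
reduction of `σ(τ)`, the dimension of `σ(τ)` and its central character on `F_p^×`.  `Z τ h` is the
Hilbert–Samuel multiplicity of the special fibre of `R^{λ,τ}` with Hodge–Tate weights
`h = λ + (n-1, …, 0)`, `h` strictly decreasing; the values at other tuples play no role.  `N` is any
multiple of the numbers `p^k - 1`, `1 ≤ k ≤ n`.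
-/

namespace Pool.Agent.Results.MP_7b0b46_nt.AlternatingSums

open U566.BM

/-- If all integral relations between the reductions for pairs `(h, τ)` hold between the
multiplicities (in particular if integers `Y k` satisfy all identities of the conjecture), then for
any two types and any two tuples with differences larger than `N (n-1)` and the same central
character on `F_p^×`, the alternating sums `∑_w sgn(w) Z τ (h + N ρ∘w)` are proportional to the
dimensions of the `σ(τ)`. -/
theorem result (p n : ℕ) [Fact p.Prime] (hn0 : 0 < n) {T : Type} (D : TypeChars p 1 n T)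
    (Z : T → (Fin n → ℤ) → ℤ) (N : ℕ) (hN : ∀ k, 1 ≤ k → k ≤ n → (p ^ k - 1) ∣ N) :
    (PairRelationsQ p D.θ Z → ∀ (h h' : Fin n → ℤ), Wide N h → Wide N h' → ∀ τ τ' : T,
      sumChar p h * D.ω τ = sumChar p h' * D.ω τ' →
      (D.deg τ' : ℤ) * altSum N (Z τ) h = (D.deg τ : ℤ) * altSum N (Z τ') h') ∧
    ∀ (W : Type) [Fintype W] (β : W → (Cls p 1 n → WittVector p (AlgebraicClosure (ZMod p))))
      (m : W → Dom n → T → ℤ) (Y : W → ℤ), LinearIndependent ℤ β →
      (∀ (h : Dom n) (τ : T), weylFun p h.1 * D.θ τ = ∑ k, m k h τ • β k) →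
      (∀ (h : Dom n) (τ : T), Z τ h.1 = ∑ k, m k h τ * Y k) →
      ∀ (h h' : Fin n → ℤ), Wide N h → Wide N h' → ∀ τ τ' : T,
        sumChar p h * D.ω τ = sumChar p h' * D.ω τ' →
        (D.deg τ' : ℤ) * altSum N (Z τ) h = (D.deg τ : ℤ) * altSum N (Z τ') h' := by
  have key : PairRelationsQ p D.θ Z → ∀ (h h' : Fin n → ℤ), Wide N h → Wide N h' → ∀ τ τ' : T,
      sumChar p h * D.ω τ = sumChar p h' * D.ω τ' →
      (D.deg τ' : ℤ) * altSum N (Z τ) h = (D.deg τ : ℤ) * altSum N (Z τ') h' := by
    intro hR h h' hw hw' τ τ' e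
    simpa only [smul_eq_mul] using altQ_law D hn0 hN hR hw hw' τ τ' e
  refine ⟨key, fun W _ β m Y hβ hm hY => key ?_⟩
  intro c hc
  exact rel_of_identities hβ (fun x : Dom n × T => weylFun p x.1.1 * D.θ x.2)
    (fun k x => m k x.1 x.2) (fun x => hm x.1 x.2) Y (fun x : Dom n × T => Z x.2 x.1.1)
    (fun x => by simpa only [smul_eq_mul] using hY x.1 x.2) c hc

end Pool.Agent.Results.MP_7b0b46_nt.AlternatingSums
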