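import Pool.Agent.U566.BMEqui3

/-!
# The Breuil–Mézard conjecture for `GL_n` over `ℚ_p`: Hodge types with congruent weights

`T` is the set of inertial types; `D` records for each type the Brauer character `θ τ` of the
reduction of `σ(τ)`, the dimension of `σ(τ)` and its central character on `F_p^×`.  `Z τ h` is the
Hilbert–Samuel multiplicity of the special fibre of `R^{λ,τ}` with Hodge–Tate weights
`h = λ + (n-1, …, 0)`, `h` strictly decreasing; the values at other tuples play no role.  `N` is any
multiple of the numbers `p^k - 1`, `1 ≤ k ≤ n`.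
-/

namespace Pool.Agent.Results.MP_7b0b46_nt.CongruentHodgeTypes

open U566.BM

/-- (1) All integral relations between the reductions for the pairs `(h, τ)` with `h` regular and
all weights congruent modulo `N` hold between the multiplicities if and only if, for any two such
pairs with the same central character on `F_p^×`, the multiplicities are proportional to the numbers
`dim σ(τ) ∏_{i<l} (h_i - h_l)`.  (2) In particular this is so if integers `Y k` satisfy the
Breuil–Mézard identities for these pairs. -/
theorem result (p n : ℕ) [Fact p.Prime] (hn0 : 0 < n) {T : Type} (D : TypeChars p 1 n T)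
    (Z : T → (Fin n → ℤ) → ℤ) (N : ℕ) (hN : ∀ k, 1 ≤ k → k ≤ n → (p ^ k - 1) ∣ N) :
    (CongRelationsQ p N D.θ Z ↔
      ∀ (h h' : Dom n), CongZ N h.1 → CongZ N h'.1 → ∀ τ τ' : T,
        sumChar p h.1 * D.ω τ = sumChar p h'.1 * D.ω τ' →
        ((D.deg τ' : ℤ) * diffProd h'.1) * Z τ h.1 = ((D.deg τ : ℤ) * diffProd h.1) * Z τ' h'.1) ∧
    ∀ (W : Type) [Fintype W] (β : W → (Cls p 1 n → WittVector p (AlgebraicClosure (ZMod p))))
      (m : W → Dom n → T → ℤ) (Y : W → ℤ), LinearIndependent ℤ β →
      (∀ (h : Dom n) (τ : T), weylFun p h.1 * D.θ τ = ∑ k, m k h τ • β k) →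
      (∀ h : Dom n, CongZ N h.1 → ∀ τ : T, Z τ h.1 = ∑ k, m k h τ * Y k) →
      ∀ (h h' : Dom n), CongZ N h.1 → CongZ N h'.1 → ∀ τ τ' : T,
        sumChar p h.1 * D.ω τ = sumChar p h'.1 * D.ω τ' →
        ((D.deg τ' : ℤ) * diffProd h'.1) * Z τ h.1
          = ((D.deg τ : ℤ) * diffProd h.1) * Z τ' h'.1 := by
  have key := congQ_iff D hn0 hN Z
  simp only [smul_eq_mul] at key
  refine ⟨key, fun W _ β m Y hβ hm hY => key.1 ?_⟩
  exact congQ_of_identities hβ m hm Y (fun h hh τ => by simpa only [smul_eq_mul] using hY h hh τ)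

end Pool.Agent.Results.MP_7b0b46_nt.CongruentHodgeTypes
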