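import Pool.Agent.U566.BMRelQ

/-!
# The Breuil–Mézard conjecture for `GL_n` over `ℚ_p`: one explicit equation for each pair

`T` is the set of inertial types and `Z τ h` the Hilbert–Samuel multiplicity of the special fibre of
`R^{λ,τ}` with Hodge–Tate weights `h = λ + (n-1, …, 0)`, `h` strictly decreasing, extended to all
integer tuples `h` by the sign rule.  `P` is the set in which the multiplicities `μ_V` are asked to
lie (the non-negative integers for `M = ℤ`).
-/

namespace Pool.Agent.Results.MP_7b0b46_nt.OneEquationPerPair

open U566.BM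

/-- First part (no assumption on the representation side, `θ τ` the Brauer character of the
reduction of `σ(τ)`): all integral relations between the reductions for pairs `(h, τ)` hold between
the `Z τ h` if and only if, for every type, `Z τ` is invariant under shifting all weights by
`p - 1` and satisfies one explicit equation at each `h` with a gap larger than `p`, and these
relations hold for the pairs with `h` normalised restricted (gaps at most `p`, last weight in
`{0, …, p-2}`).  Second part (`D` the Serre weights and types): multiplicities `Y k ∈ P` with the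
Breuil–Mézard identities for all pairs exist if and only if these twist and one-per-pair equations
hold, one change of type equation holds for each type at each normalised restricted `h`, and
finitely many explicit combinations of crystalline multiplicities lie in `P`.  These are then the
`Y k`. -/
theorem result (p n : ℕ) [Fact p.Prime] {T : Type} {M : Type} [AddCommGroup M]
    [IsAddTorsionFree M] (Z : T → (Fin n → ℤ) → M) (hZ : ∀ τ, SignRule (Z τ)) :
    (∀ θ : T → (Cls p 1 n → WittVector p (AlgebraicClosure (ZMod p))),
      PairRelationsQ p θ Z ↔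
        (∀ τ, TwistQ p (Z τ)) ∧ (∀ τ, OneEq p (Z τ)) ∧ BaseRelationsQ p θ Z) ∧
    ∀ (W : Type) [Fintype W] (D : QpTypes p n T W) (P : Set M),
      ((∃ Y : W → M, (∀ k, Y k ∈ P) ∧
        ∀ (h : Dom n) (τ : T), Z τ h.1 = ∑ k, D.mlt k h τ • Y k) ↔
        (∀ τ, TwistQ p (Z τ)) ∧ (∀ τ, OneEq p (Z τ)) ∧ TypeEqQ D Z ∧
          ∀ k y, PredictedQ D Z k y → y ∈ P) ∧
      (∀ (τ : T) (h : NDom p n), ∃! c : NDom p n →₀ ℤ, weylFun p h.1.1 * D.θ τ
        = Finsupp.linearCombination ℤ (fun h' : NDom p n => weylFun p h'.1.1) c) ∧
      (∀ k, ∃! y, PredictedQ D Z k y) ∧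
      ∀ Y : W → M, (∀ (h : Dom n) (τ : T), Z τ h.1 = ∑ k, D.mlt k h τ • Y k) →
        ∀ k y, PredictedQ D Z k y → Y k = y :=
  ⟨fun θ => pairRelQ_iff θ hZ, fun W _ D P => ⟨typesQ_iff D hZ P,
    fun τ h => exists_unique_coeff (type_mem D h.1 τ), fun k => predictedQ_exists D k,
    fun Y hY k y hy => forcedQ D hZ Y hY k y hy⟩⟩

end Pool.Agent.Results.MP_7b0b46_nt.OneEquationPerPair
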