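import Pool.Agent.U566.BMDeep2

/-!
# The Breuil–Mézard conjecture for `GL_n` over `ℚ_p`: polynomiality and deep Hodge types

`T` is the set of inertial types and `Z τ h` the Hilbert–Samuel multiplicity of the special fibre of
`R^{λ,τ}` with Hodge–Tate weights `h = λ + (n-1, …, 0)`, `h` strictly decreasing; the values at
other tuples play no role.  `P` is the set in which the multiplicities `μ_V` are asked to lie (the
non-negative integers for `M = ℤ`), `N` any positive multiple of the numbers `p^k - 1`,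
`1 ≤ k ≤ n`, and `C` any bound.
-/

namespace Pool.Agent.Results.MP_7b0b46_nt.PolynomialMultiplicities

open U566.BM

/-- Multiplicities `Y k ∈ P` with the Breuil–Mézard identities for all pairs `(h, τ)` exist if and
only if they exist for the pairs with all gaps of `h` at least `C` and, for every type, `Z τ` is
polynomial of degree at most `n(n-1)/2` in `k` along all progressions `h + k N v`, `v`
non-increasing.  The same `Y` serve. -/
theorem result (p n : ℕ) [Fact p.Prime] {T W : Type} [Fintype W] (D : QpPairs p n T W)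
    {M : Type} [AddCommGroup M] (Z : T → (Fin n → ℤ) → M)
    (N : ℕ) (hN0 : 0 < N) (hN : ∀ k, 1 ≤ k → k ≤ n → (p ^ k - 1) ∣ N) (C : ℕ) (P : Set M) :
    ((∃ Y : W → M, (∀ k, Y k ∈ P) ∧
      ∀ (h : Dom n) (τ : T), Z τ h.1 = ∑ k, D.mlt k h τ • Y k) ↔
      (∃ Y : W → M, (∀ k, Y k ∈ P) ∧
        ∀ h : Dom n, GapsGe C h.1 → ∀ τ : T, Z τ h.1 = ∑ k, D.mlt k h τ • Y k) ∧
        PolyQ N Z) ∧
    ∀ Y : W → M, (∀ (h : Dom n) (τ : T), Z τ h.1 = ∑ k, D.mlt k h τ • Y k) ↔
      (∀ h : Dom n, GapsGe C h.1 → ∀ τ : T, Z τ h.1 = ∑ k, D.mlt k h τ • Y k) ∧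
        PolyQ N Z := by
  refine ⟨⟨?_, ?_⟩, deepQ_iff D hN0 hN C⟩
  · rintro ⟨Y, hP, hY⟩
    obtain ⟨h1, h2⟩ := (deepQ_iff D hN0 hN C Y).1 hY
    exact ⟨⟨Y, hP, h1⟩, h2⟩
  · rintro ⟨⟨Y, hP, hY⟩, h2⟩
    exact ⟨Y, hP, (deepQ_iff D hN0 hN C Y).2 ⟨hY, h2⟩⟩

end Pool.Agent.Results.MP_7b0b46_nt.PolynomialMultiplicities
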